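import Pool.Agent.RZ.RCRSHalf.Gen
import Pool.Agent.RZ.RCRSHalf.Ode

/-! Existence of solutions on `[0, 1]` (MP_73ccd0_lc, general graphs). -/

namespace Pool.Agent.RZ.RCG

open Set Finset Pool.Agent.RZ.RCRSHalf

set_option linter.unusedSectionVars false

/-- Existence of solutions on `(-1, 2)` for bounded Lipschitz fields. -/
theorem exists_sol2 {ι : Type*} [Fintype ι] (f : ℝ → (ι → ℝ) → (ι → ℝ))
    (hf : ∀ i, UBL fun t y => f t y i) {t0 : ℝ} (ht0 : t0 ∈ Icc (-1 : ℝ) 2) (y0 : ι → ℝ) :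
    ∃ α : ℝ → ι → ℝ, α t0 = y0 ∧ ∀ t ∈ Ioo (-1 : ℝ) 2, ∀ i,
      HasDerivAt (fun t => α t i) (f t (α t) i) t := by
  choose K C hK hC hL hb using fun i => (hf i).ex
  set K' : ℝ := ∑ i, K i with hK'
  set C' : ℝ := ∑ i, C i with hC'
  have hK'0 : 0 ≤ K' := Finset.sum_nonneg fun i _ => hK i
  have hC'0 : 0 ≤ C' := Finset.sum_nonneg fun i _ => hC i
  have hKi : ∀ i, K i ≤ K' := fun i =>
    Finset.single_le_sum (f := K) (fun j _ => hK j) (Finset.mem_univ i)
  have hCi : ∀ i, C i ≤ C' := fun i =>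
    Finset.single_le_sum (f := C) (fun j _ => hC j) (Finset.mem_univ i)
  have hP : IsPicardLindelof f (tmin := -1) (tmax := 2) ⟨t0, ht0⟩ y0
      (⟨3 * C', by positivity⟩ : NNReal) 0 (⟨C', hC'0⟩ : NNReal) (⟨K', hK'0⟩ : NNReal) := by
    constructor
    · intro t _
      apply LipschitzWith.lipschitzOnWith
      apply LipschitzWith.of_dist_le_mul
      intro y z
      rw [dist_pi_le_iff (by positivity)]
      intro i
      rw [Real.dist_eq, dist_eq_norm]
      refine (hL i t y z).trans ?_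
      exact mul_le_mul_of_nonneg_right (hKi i) (norm_nonneg _)
    · intro y _
      exact (continuous_pi fun i => (hf i).cont y).continuousOn
    · intro t _ y _
      rw [pi_norm_le_iff_of_nonneg (by exact hC'0)]
      intro i
      exact (hb i t y).trans (hCi i)
    · have h1 : max ((2 : ℝ) - t0) (t0 - -1) ≤ 3 := max_le (by linarith [ht0.1]) (by linarith [ht0.2])
      have : C' * max ((2 : ℝ) - t0) (t0 - -1) ≤ 3 * C' - 0 := by nlinarith
      exact this
  obtain ⟨α, h0, h⟩ := hP.exists_eq_forall_mem_Icc_hasDerivWithinAt₀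
  refine ⟨α, h0, fun t ht i => ?_⟩
  have h1 := (h t ⟨ht.1.le, ht.2.le⟩).hasDerivAt (Icc_mem_nhds ht.1 ht.2)
  exact (hasDerivAt_pi.1 h1) i

variable {V : Type*} [Fintype V] [DecidableEq V]

/-- existence of the forward law on `[0, 1]` -/
theorem exists_law2 {hz : ℝ → (Finset V → ℝ) → V → V → ℝ} (hU : ∀ a b, UBL fun t y => hz t y a b)
    (h0 : ∀ t y a b, 0 ≤ hz t y a b) (U : Finset V) :
    ∃ μ : ℝ → Finset V → ℝ, IsLaw (fun t => hz t (μ t)) U 1 μ ∧
      ∀ F, Continuous fun t => μ (max 0 (min 1 t)) F := by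
  let cl : (Finset V → ℝ) → Finset V → ℝ := fun y F => max 0 (min 1 (y F))
  let f : ℝ → (Finset V → ℝ) → (Finset V → ℝ) := fun t y F => fwd (hz t y) (cl y) F
  have hgen : ∀ F0 F, UBL fun t y => gen (hz t y) (pt F0) F := by
    intro F0 F
    refine (UBL.const (1 / 2)).mul (UBL.sum _ fun a _ => UBL.sum _ fun b _ => ?_)
    exact (hU a b).mul (UBL.const _)
  have hf : ∀ F, UBL fun t y => f t y F := by
    intro F
    exact UBL.sum _ fun G _ => (UBL.coord G).mul (hgen F G)
  obtain ⟨α, hα0, hα⟩ := exists_sol2 f hf (t0 := 0) ⟨by norm_num, by norm_num⟩ (pt U)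
  have hmem : ∀ r ∈ Icc (0 : ℝ) 1, r ∈ Ioo (-1 : ℝ) 2 := fun r hr =>
    ⟨by linarith [hr.1], by linarith [hr.2]⟩
  have cl0 : ∀ y F, 0 ≤ cl y F := fun y F => le_max_left _ _
  have pt0 : ∀ F G : Finset V, 0 ≤ pt F G := fun F G => by unfold pt; split_ifs <;> norm_num
  have hge : ∀ F, ∀ r ∈ Icc (0 : ℝ) 1, 0 ≤ α r F := by
    intro F0
    refine nonneg_of_forward (fun r hr => hα r (hmem r hr) F0) (by rw [hα0]; exact pt0 _ _) ?_
    intro r hr hlt
    have hcl : cl (α r) F0 = 0 := by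
      simp only [cl]; exact max_eq_left ((min_le_right _ _).trans hlt.le)
    simp only [f]
    unfold fwd
    refine Finset.sum_nonneg fun F _ => ?_
    by_cases hF : F = F0
    · subst hF; rw [hcl, zero_mul]
    · refine mul_nonneg (cl0 _ _) ?_
      unfold gen
      have : pt F0 F = 0 := by unfold pt; rw [if_neg hF]
      rw [this]
      refine mul_nonneg (by norm_num) (Finset.sum_nonneg fun a _ => Finset.sum_nonneg fun b _ => ?_)
      rw [sub_zero]
      exact mul_nonneg (h0 _ _ _ _) (pt0 _ _)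
  have hsum : ∀ r ∈ Icc (0 : ℝ) 1, HasDerivAt (fun t => ∑ F : Finset V, α t F) 0 r := by
    intro r hr
    have h1 : HasDerivAt (fun t => ∑ F : Finset V, α t F) (∑ F : Finset V, f r (α r) F) r :=
      HasDerivAt.fun_sum fun F _ => hα r (hmem r hr) F
    have h2 : ∑ F : Finset V, f r (α r) F = 0 := by
      have := sum_fwd (hz r (α r)) (cl (α r)) (fun _ => 1)
      simp only [mul_one] at this
      simp only [f]
      rw [this]
      simp [gen_const]
    rwa [h2] at h1
  have h00 : ∑ F : Finset V, α 0 F = 1 := by rw [hα0]; simp [pt]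
  have htot : ∀ r ∈ Icc (0 : ℝ) 1, ∑ F : Finset V, α r F = 1 := by
    intro r hr
    have e1 := nonneg_of_forward (U := fun t => ∑ F : Finset V, α t F - 1) (U' := fun _ => 0)
      (a := 0) (s := 1) (fun r hr => by simpa using (hsum r hr).sub_const 1)
      (by simp [h00]) (fun _ _ _ => le_rfl) r hr
    have e2 := nonneg_of_forward (U := fun t => 1 - ∑ F : Finset V, α t F) (U' := fun _ => 0)
      (a := 0) (s := 1) (fun r hr => by simpa using (hsum r hr).const_sub 1)
      (by simp [h00]) (fun _ _ _ => le_rfl) r hr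
    linarith
  have hle : ∀ F, ∀ r ∈ Icc (0 : ℝ) 1, α r F ≤ 1 := by
    intro F r hr
    rw [← htot r hr]
    exact Finset.single_le_sum (f := fun F => α r F) (fun G _ => hge G r hr) (Finset.mem_univ F)
  have hcl : ∀ r ∈ Icc (0 : ℝ) 1, cl (α r) = α r := by
    intro r hr
    funext F
    simp only [cl]
    rw [min_eq_right (hle F r hr), max_eq_right (hge F r hr)]
  refine ⟨α, ⟨hα0, fun F r hr => ?_, hge, htot⟩, fun F => ?_⟩
  · have := hα r (hmem r hr) F
    simp only [f] at this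
    rw [hcl r hr] at this
    exact this
  · have hcl' : Continuous fun t : ℝ => max 0 (min 1 t) := by fun_prop
    rw [continuous_iff_continuousAt]
    intro t
    have hm : max 0 (min 1 t) ∈ Icc (0 : ℝ) 1 := ⟨le_max_left _ _, max_le zero_le_one (min_le_left _ _)⟩
    exact ContinuousAt.comp (f := fun t => max 0 (min 1 t)) (g := fun s => α s F)
      (hα _ (hmem _ hm) F).continuousAt hcl'.continuousAt

/-- `R` solves the backward equation with hazards `h`, killing `k`, discount `ρ` and source `c` on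
`[0, s1]` (terminal values arbitrary). -/
structure IsEv (h : ℝ → V → V → ℝ) (k : ℝ → V → ℝ) (ρ c : ℝ → ℝ) (s1 : ℝ)
    (R : Finset V → ℝ → ℝ) : Prop where
  deriv : ∀ F, ∀ r ∈ Icc 0 s1, HasDerivAt (R F)
    (-(gen (h r) (fun G => R G r) F - (∑ a ∈ F, k r a) * R F r - ρ r * R F r + c r)) r
  nonneg : ∀ F, ∀ r ∈ Icc 0 s1, 0 ≤ R F r

/-- uniform boundedness over `F` of the generator at a point where the clamp is active -/
theorem gen_nonpos_of {h : V → V → ℝ} (h0 : ∀ a b, 0 ≤ h a b) {φ : Finset V → ℝ} {F : Finset V}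
    {β : ℝ} (h1 : ∀ a ∈ F, ∀ b ∈ F, φ ((F.erase a).erase b) ≤ β) (h2 : β ≤ φ F) :
    gen h φ F ≤ 0 := by
  unfold gen
  refine mul_nonpos_of_nonneg_of_nonpos (by norm_num)
    (Finset.sum_nonpos fun a ha => Finset.sum_nonpos fun b hb => ?_)
  exact mul_nonpos_of_nonneg_of_nonpos (h0 _ _) (by linarith [h1 a ha b hb])

/-- Existence of solutions of the backward equation. -/
theorem exists_ev {h : ℝ → V → V → ℝ} {k : ℝ → V → ℝ} {ρ c : ℝ → ℝ}
    (hc : ∀ a b, Continuous fun t => h t a b) {C : ℝ}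
    (hb : ∀ t a b, h t a b ≤ C) (h0 : ∀ t a b, 0 ≤ h t a b)
    (kc : ∀ a, Continuous fun t => k t a) (kb : ∀ t a, k t a ≤ C) (k0 : ∀ t a, 0 ≤ k t a)
    (ρc : Continuous ρ) (ρb : ∀ t, ρ t ≤ C) (ρ0 : ∀ t, 0 ≤ ρ t)
    (cc : Continuous c) (cb : ∀ t, c t ≤ C) (c0 : ∀ t, 0 ≤ c t)
    {s : ℝ} (hs : s ∈ Icc (0 : ℝ) 1) (ψ : Finset V → ℝ) (hψ : ∀ F, 0 ≤ ψ F) :
    ∃ R : Finset V → ℝ → ℝ, IsEv h k ρ c s R ∧ ∀ F, R F s = ψ F := by
  have hC0 : 0 ≤ C := (c0 0).trans (cb 0)
  -- bound
  set B : ℝ := ∑ F : Finset V, ψ F + C + 1 with hB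
  have hΨ0 : 0 ≤ ∑ F : Finset V, ψ F := Finset.sum_nonneg fun F _ => hψ F
  have hB0 : 0 < B := by rw [hB]; linarith
  have hψB : ∀ F, ψ F ≤ ∑ F : Finset V, ψ F := fun F =>
    Finset.single_le_sum (f := ψ) (fun G _ => hψ G) (Finset.mem_univ F)
  have hU : ∀ a b, UBL fun (t : ℝ) (_ : Finset V → ℝ) => h t a b := fun a b =>
    UBL.ofTime (hc a b) (C := C) fun t => by rw [abs_of_nonneg (h0 t a b)]; exact hb t a b
  have kU : ∀ a, UBL fun (t : ℝ) (_ : Finset V → ℝ) => k t a := fun a =>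
    UBL.ofTime (kc a) (C := C) fun t => by rw [abs_of_nonneg (k0 t a)]; exact kb t a
  have rU : UBL fun (t : ℝ) (_ : Finset V → ℝ) => ρ t :=
    UBL.ofTime ρc (C := C) fun t => by rw [abs_of_nonneg (ρ0 t)]; exact ρb t
  have cU : UBL fun (t : ℝ) (_ : Finset V → ℝ) => c t * B⁻¹ :=
    (UBL.ofTime cc (C := C) fun t => by rw [abs_of_nonneg (c0 t)]; exact cb t).mul (UBL.const _)
  let cl : (Finset V → ℝ) → Finset V → ℝ := fun y F => max 0 (min 1 (y F))
  let f : ℝ → (Finset V → ℝ) → (Finset V → ℝ) := fun t y F =>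
    -(gen (h t) (cl y) F - (∑ a ∈ F, k t a) * cl y F - ρ t * cl y F + c t * B⁻¹)
  have hf : ∀ F, UBL fun t y => f t y F := by
    intro F
    refine UBL.neg (UBL.add (UBL.sub (UBL.sub ?_ ?_) ?_) cU)
    · refine (UBL.const (1 / 2)).mul ?_
      refine UBL.sum _ fun a _ => UBL.sum _ fun b _ => ?_
      exact (hU a b).mul ((UBL.coord _).sub (UBL.coord _))
    · exact (UBL.sum _ fun a _ => kU a).mul (UBL.coord F)
    · exact rU.mul (UBL.coord F)
  obtain ⟨α, hα0, hα⟩ := exists_sol2 f hf (t0 := s) ⟨by linarith [hs.1], by linarith [hs.2]⟩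
    (fun F => ψ F * B⁻¹)
  have hmem : ∀ r ∈ Icc 0 s, r ∈ Ioo (-1 : ℝ) 2 := fun r hr =>
    ⟨by linarith [hr.1], by linarith [hr.2, hs.2]⟩
  have cl0 : ∀ y F, 0 ≤ cl y F := fun y F => le_max_left _ _
  have cl1 : ∀ y F, cl y F ≤ 1 := fun y F => max_le zero_le_one (min_le_left _ _)
  have hBi : 0 < B⁻¹ := inv_pos.2 hB0
  have hge : ∀ F, ∀ r ∈ Icc 0 s, 0 ≤ α r F := by
    intro F
    refine nonneg_of_backward (fun r hr => hα r (hmem r hr) F)
      (by rw [hα0]; exact mul_nonneg (hψ F) hBi.le) ?_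
    intro r hr hlt
    have hcl : cl (α r) F = 0 := by
      simp only [cl]; exact max_eq_left ((min_le_right _ _).trans hlt.le)
    have : 0 ≤ gen (h r) (cl (α r)) F := by
      unfold gen
      rw [hcl]
      refine mul_nonneg (by norm_num) (Finset.sum_nonneg fun a _ => Finset.sum_nonneg fun b _ => ?_)
      rw [sub_zero]
      exact mul_nonneg (h0 _ _ _) (cl0 _ _)
    have h3 : 0 ≤ c r * B⁻¹ := mul_nonneg (c0 r) hBi.le
    simp only [f]
    rw [hcl]
    linarith
  -- the bound β(r) = (Ψ + C (s - r)) / B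
  have hβ1 : ∀ r ∈ Icc 0 s, (∑ F : Finset V, ψ F + C * (s - r)) * B⁻¹ ≤ 1 := by
    intro r hr
    rw [← div_eq_mul_inv, div_le_one hB0, hB]
    have : C * (s - r) ≤ C * 1 := mul_le_mul_of_nonneg_left (by linarith [hr.1, hs.2]) hC0
    linarith
  have hle : ∀ n : ℕ, ∀ F : Finset V, F.card = n → ∀ r ∈ Icc 0 s,
      α r F ≤ (∑ F : Finset V, ψ F + C * (s - r)) * B⁻¹ := by
    intro n
    induction n using Nat.strong_induction_on with
    | _ n ih =>
    intro F hF r hr
    have := nonneg_of_backward (U := fun r => (∑ F : Finset V, ψ F + C * (s - r)) * B⁻¹ - α r F)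
      (U' := fun r => -C * B⁻¹ - f r (α r) F) (a := 0) (s := s)
      (fun r hr => by
        have h1 : HasDerivAt (fun r => (∑ F : Finset V, ψ F + C * (s - r)) * B⁻¹) (-C * B⁻¹) r := by
          have h2 := ((((hasDerivAt_id' r).const_sub s).const_mul C).const_add
            (∑ F : Finset V, ψ F)).mul_const B⁻¹
          refine h2.congr_deriv ?_
          ring
        exact h1.sub (hα r (hmem r hr) F))
      (by
        simp only [hα0, sub_self, mul_zero, add_zero]
        rw [← sub_mul]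
        exact mul_nonneg (by linarith [hψB F]) hBi.le) ?_ r hr
    · linarith
    · intro r hr hlt
      set β : ℝ := (∑ F : Finset V, ψ F + C * (s - r)) * B⁻¹ with hβ
      have hgt : β < α r F := by linarith
      have hβ0 : 0 ≤ β := by
        rw [hβ]
        have : 0 ≤ C * (s - r) := mul_nonneg hC0 (by linarith [hr.2])
        positivity
      have hclF : β ≤ cl (α r) F := by
        simp only [cl]
        exact le_max_of_le_right (le_min (hβ1 r hr) hgt.le)
      have hg : gen (h r) (cl (α r)) F ≤ 0 := by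
        refine gen_nonpos_of (h0 r) (β := β) (fun a ha b hb => ?_) hclF
        have hcard : ((F.erase a).erase b).card < n := by
          rw [← hF]
          exact (Finset.card_le_card (Finset.erase_subset _ _)).trans_lt
            (Finset.card_erase_lt_of_mem ha)
        have := ih _ hcard ((F.erase a).erase b) rfl r hr
        simp only [cl]
        exact max_le hβ0 ((min_le_right _ _).trans this)
      have hk : 0 ≤ (∑ a ∈ F, k r a) * cl (α r) F :=
        mul_nonneg (Finset.sum_nonneg fun a _ => k0 _ _) (cl0 _ _)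
      have hρ : 0 ≤ ρ r * cl (α r) F := mul_nonneg (ρ0 r) (cl0 _ _)
      have hcr : c r * B⁻¹ ≤ C * B⁻¹ := mul_le_mul_of_nonneg_right (cb r) hBi.le
      simp only [f]
      linarith
  have hcl : ∀ r ∈ Icc 0 s, cl (α r) = α r := by
    intro r hr
    funext F
    simp only [cl]
    rw [min_eq_right ((hle _ F rfl r hr).trans (hβ1 r hr)), max_eq_right (hge F r hr)]
  refine ⟨fun F r => B * α r F, ⟨fun F r hr => ?_, fun F r hr => mul_nonneg hB0.le (hge F r hr)⟩,
    fun F => ?_⟩
  · have := (hα r (hmem r hr) F).const_mul B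
    refine this.congr_deriv ?_
    simp only [f]
    rw [hcl r hr]
    have e : gen (h r) (fun G => B * α r G) F = B * gen (h r) (α r) F :=
      (genL (h r) F).map_smul B (α r)
    rw [e]
    have hBB : B * B⁻¹ = 1 := mul_inv_cancel₀ hB0.ne'
    have : B * (c r * B⁻¹) = c r := by rw [mul_left_comm, hBB, mul_one]
    linear_combination (-1 : ℝ) * this
  · simp only [hα0]
    field_simp

end Pool.Agent.RZ.RCG
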