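import Pool.Agent.RZ.RCG.Ctx
import Pool.Agent.RZ.RCRS.Laws
import Pool.Agent.RZ.RCRSHalf.Final2
import Pool.Agent.RZ.RCRSHalf.RingEq
import Pool.Agent.RZ.RCRSHalf.Uniq

/-! The extended graph with pendant vertices, and the ring laws (MP_73ccd0_lc, general graphs). -/

set_option linter.unusedSectionVars false

namespace Pool.Agent.RZ.RCG

open MeasureTheory Set Pool.Agent.RZ.RCRS Pool.Agent.RZ.RCRSHalf

section FinA

variable {V : Type} [Fintype V] [DecidableEq V] {G : SimpleGraph V} [Fintype G.edgeSet]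
  [DecidableEq G.edgeSet] (x : G.edgeSet → ℝ)
  (h : ℝ → V ⊕ V → V ⊕ V → ℝ) (H : V ⊕ V → V ⊕ V → ℝ → ℝ)

/-- the extended weights -/
noncomputable def xe : V ⊕ V → V ⊕ V → ℝ
  | Sum.inl a, Sum.inl b => xw x a b
  | Sum.inl a, Sum.inr b => if a = b then defect x a else 0
  | Sum.inr a, Sum.inl b => if a = b then defect x a else 0
  | Sum.inr _, Sum.inr _ => 0

/-- first end of an item -/
noncomputable def va : G.edgeSet ⊕ V → V ⊕ V
  | Sum.inl e => Sum.inl (fe e)
  | Sum.inr v => Sum.inl v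

/-- second end of an item -/
noncomputable def vb : G.edgeSet ⊕ V → V ⊕ V
  | Sum.inl e => Sum.inl (se e)
  | Sum.inr v => Sum.inr v

theorem xe_item (i : G.edgeSet ⊕ V) : xe x (va i) (vb i) = wt x i := by
  rcases i with e | v
  · exact xw_rep x e
  · simp [va, vb, xe, wt]

theorem xe_symm (a b : V ⊕ V) : xe x a b = xe x b a := by
  rcases a with a | a <;> rcases b with b | b
  · exact xw_symm x a b
  · simp only [xe]
    by_cases hab : a = b
    · subst hab; simp
    · simp [hab, Ne.symm hab]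
  · simp only [xe]
    by_cases hab : a = b
    · subst hab; simp
    · simp [hab, Ne.symm hab]
  · rfl

theorem xe_nonneg (hx : IsFractionalMatching G x) (a b : V ⊕ V) : 0 ≤ xe x a b := by
  have hxw : ∀ a b, 0 ≤ xw x a b := fun a b => by
    by_cases h : G.Adj a b
    · rw [xw_adj x h]; exact (hx.1 _).1
    · rw [xw_nadj x h]
  rcases a with a | a <;> rcases b with b | b
  · exact hxw a b
  · simp only [xe]
    split_ifs
    · exact defect_nonneg hx a
    · exact le_rfl
  · simp only [xe]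
    split_ifs
    · exact defect_nonneg hx a
    · exact le_rfl
  · exact le_rfl

theorem xe_diag (a : V ⊕ V) : xe x a a = 0 := by
  rcases a with a | a
  · exact xw_nadj x (G.loopless.irrefl a)
  · rfl

/-- rows of the extended weights -/
theorem xe_row (hx : IsFractionalMatching G x) (a : V ⊕ V) : ∑ b, xe x a b ≤ 1 := by
  rw [Fintype.sum_sum_type]
  rcases a with a | a
  · have e1 : ∑ b : V, xe x (Sum.inl a) (Sum.inr b) = defect x a := by
      simp [xe]
    have e2 : ∑ b : V, xe x (Sum.inl a) (Sum.inl b)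
        = ∑ e : G.edgeSet, if a ∈ (e : Sym2 V) then x e else 0 := xw_row x a
    rw [e1, e2]
    unfold defect
    linarith
  · have e1 : ∑ b : V, xe x (Sum.inr a) (Sum.inr b) = 0 := by simp [xe]
    have e2 : ∑ b : V, xe x (Sum.inr a) (Sum.inl b) = defect x a := by
      simp [xe]
    rw [e1, e2, add_zero]
    exact defect_le_one hx a

/-- rows of the non-pendant vertices -/
theorem xe_row_inl (a : V) : ∑ b, xe x (Sum.inl a) b = 1 := by
  rw [Fintype.sum_sum_type]
  have e1 : ∑ b : V, xe x (Sum.inl a) (Sum.inr b) = defect x a := by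
    simp [xe]
  have e2 : ∑ b : V, xe x (Sum.inl a) (Sum.inl b)
      = ∑ e : G.edgeSet, if a ∈ (e : Sym2 V) then x e else 0 := xw_row x a
  rw [e1, e2]
  unfold defect
  linarith

/-- hazard of an item -/
noncomputable def hi (i : G.edgeSet ⊕ V) (t : ℝ) : ℝ := h t (va i) (vb i)

/-- cumulative hazard of an item -/
noncomputable def Hi (i : G.edgeSet ⊕ V) (t : ℝ) : ℝ := H (va i) (vb i) t

/-- acceptance probability of an item -/
noncomputable def accI (i : G.edgeSet ⊕ V) : ℝ → ℝ :=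
  cut fun t => hi h i t * Real.exp (-Hi H i t) / wt x i

/-- all laws -/
noncomputable def lwI2 : G.edgeSet ⊕ V → Measure ℝ :=
  laws (fun e => accI x h H (Sum.inl e)) x (fun v => mixture (defect x v) (accI x h H (Sum.inr v)))

/-- all densities -/
noncomputable def dnI2 (i : G.edgeSet ⊕ V) (t : ℝ) : ℝ := wt x i * accI x h H i t

/-- all hazards -/
noncomputable def hzI2 (i : G.edgeSet ⊕ V) : ℝ → ℝ := cut (hi h i)

theorem lwI2_eq (i : G.edgeSet ⊕ V) : lwI2 x h H i = mixture (wt x i) (accI x h H i) := by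
  rcases i with e | v
  · rfl
  · rfl

/-- what the hazards have to satisfy -/
structure Sol (φ : V ⊕ V → V ⊕ V → ℝ → ℝ) : Prop where
  hz : Haz h H
  fl : ∀ t ∈ Icc (0 : ℝ) 1, ∀ a b, h t a b * pp h a b t = xe x a b * φ a b t
  z : ∀ t ∈ Icc (0 : ℝ) 1, ∀ a b, xe x a b = 0 → h t a b = 0
  ac : ∀ t ∈ Icc (0 : ℝ) 1, ∀ a b, xe x a b ≠ 0 → φ a b t ≤ Real.exp (H a b t) * pp h a b t
  ps : ∀ t ∈ Icc (0 : ℝ) 1, ∀ a b, xe x a b ≠ 0 → 0 < pp h a b t

variable {x h H} {φ : V ⊕ V → V ⊕ V → ℝ → ℝ}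

theorem Hcont (hh : Haz h H) (a b : V ⊕ V) : Continuous (H a b) :=
  continuous_iff_continuousAt.2 fun t => (hh.Hd a b t).continuousAt

theorem measurable_accI (hh : Haz h H) (i : G.edgeSet ⊕ V) : Measurable (accI x h H i) := by
  unfold accI
  refine measurable_cut ?_
  refine Measurable.div_const (Measurable.mul ?_ ?_) _
  · exact (hh.cont _ _).measurable
  · exact Real.measurable_exp.comp (Hcont hh _ _).measurable.neg

theorem int_hi (hh : Haz h H) (i : G.edgeSet ⊕ V) {τ : ℝ} (hτ : τ ∈ Icc (0:ℝ) 1) :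
    ∫ t in Ico 0 τ, hzI2 h i t = Hi H i τ := by
  unfold hzI2
  rw [integral_cut _ hτ.2, integral_Ico_eq_integral_Ioc, ← intervalIntegral.integral_of_le hτ.1]
  have hFTC := intervalIntegral.integral_eq_sub_of_hasDerivAt (a := 0) (b := τ)
    (f := fun t => Hi H i t) (f' := fun t => hi h i t)
    (fun t _ => hh.Hd _ _ t) ((hh.cont _ _).intervalIntegrable _ _)
  rw [hFTC]
  simp only [Hi, hh.H0, sub_zero]

theorem int_dens2 (hh : Haz h H) (i : G.edgeSet ⊕ V) {τ : ℝ} (hτ : τ ∈ Icc (0:ℝ) 1) :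
    ∫ t in Ico 0 τ, hi h i t * Real.exp (-Hi H i t) = 1 - Real.exp (-Hi H i τ) := by
  rw [integral_Ico_eq_integral_Ioc, ← intervalIntegral.integral_of_le hτ.1]
  have hFTC := intervalIntegral.integral_eq_sub_of_hasDerivAt (a := 0) (b := τ)
    (f := fun t => -Real.exp (-Hi H i t))
    (f' := fun t => hi h i t * Real.exp (-Hi H i t))
    (fun t _ => by
      have h1 := (hh.Hd (va i) (vb i) t).neg.exp.neg
      refine h1.congr_deriv ?_
      show -(Real.exp (-H (va i) (vb i) t) * -h t (va i) (vb i)) = _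
      simp only [hi, Hi]
      ring)
    ((((hh.cont _ _).mul (Real.continuous_exp.comp (Hcont hh _ _).neg))).intervalIntegrable _ _)
  rw [hFTC]
  simp only [Hi, hh.H0]
  simp
  ring

theorem mul_accI (hS : Sol x h H φ) (i : G.edgeSet ⊕ V) {t : ℝ} (ht : t ∈ Ico (0:ℝ) 1) :
    wt x i * accI x h H i t = hi h i t * Real.exp (-Hi H i t) := by
  unfold accI
  rw [cut_of_mem ht]
  by_cases hx : wt x i = 0
  · have h0 : hi h i t = 0 := hS.z t ⟨ht.1, ht.2.le⟩ _ _ (by rw [xe_item]; exact hx)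
    rw [h0]; simp
  · field_simp

theorem accI_le_one (hS : Sol x h H φ) (hx : IsFractionalMatching G x)
    (i : G.edgeSet ⊕ V) (t : ℝ) : 0 ≤ accI x h H i t ∧ accI x h H i t ≤ 1 := by
  have hw := wt_nonneg hx i
  unfold accI
  by_cases ht : t ∈ Ico (0:ℝ) 1
  · rw [cut_of_mem ht]
    refine ⟨div_nonneg (mul_nonneg (hS.hz.nonneg _ _ _) (Real.exp_pos _).le) hw, ?_⟩
    by_cases hx : wt x i = 0
    · rw [hx, div_zero]; exact zero_le_one
    have ht' : t ∈ Icc (0:ℝ) 1 := ⟨ht.1, ht.2.le⟩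
    have hxe : 0 < wt x i := lt_of_le_of_ne hw (Ne.symm hx)
    have hne : xe x (va i) (vb i) ≠ 0 := by rw [xe_item]; exact hx
    have h1 := hS.fl t ht' (va i) (vb i)
    have h2 := hS.ac t ht' (va i) (vb i) hne
    have h3 := hS.ps t ht' (va i) (vb i) hne
    rw [xe_item] at h1
    rw [div_le_one hxe]
    set P := pp h (va i) (vb i) t with hP
    have hE : Real.exp (H (va i) (vb i) t) * Real.exp (-H (va i) (vb i) t) = 1 := by
      rw [← Real.exp_add, add_neg_cancel, Real.exp_zero]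
    have h4 : (hi h i t * Real.exp (-Hi H i t)) * P ≤ wt x i * P := by
      calc (hi h i t * Real.exp (-Hi H i t)) * P
          = (h t (va i) (vb i) * P) * Real.exp (-H (va i) (vb i) t) := by
            simp only [hi, Hi]; ring
        _ = wt x i * φ (va i) (vb i) t * Real.exp (-H (va i) (vb i) t) := by rw [h1]
        _ ≤ wt x i * (Real.exp (H (va i) (vb i) t) * P) * Real.exp (-H (va i) (vb i) t) :=
            mul_le_mul_of_nonneg_right (mul_le_mul_of_nonneg_left h2 hw) (Real.exp_pos _).le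
        _ = wt x i * P * (Real.exp (H (va i) (vb i) t) * Real.exp (-H (va i) (vb i) t)) := by ring
        _ = wt x i * P := by rw [hE, mul_one]
    exact le_of_mul_le_mul_right h4 h3
  · unfold cut
    rw [Set.indicator_of_notMem ht]
    exact ⟨le_rfl, zero_le_one⟩

theorem ringLawI2 (hS : Sol x h H φ) (hx : IsFractionalMatching G x) (i : G.edgeSet ⊕ V) :
    RingLaw (lwI2 x h H i) (dnI2 x h H i) (hzI2 h i) := by
  rw [lwI2_eq]
  refine ringLaw_mixture (wt_nonneg hx i) (measurable_accI hS.hz i)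
    (fun t => (accI_le_one hS hx i t).1) (fun t => (accI_le_one hS hx i t).2)
    (measurable_cut (hS.hz.cont _ _).measurable) (fun t => ?_) ?_ (fun τ hτ => ?_)
  · unfold hzI2 cut
    exact Set.indicator_nonneg (fun t _ => hS.hz.nonneg _ _ _) t
  · have h2 : IntegrableOn (hi h i) (Ico 0 1) :=
      ((hS.hz.cont _ _).continuousOn.integrableOn_Icc (a := 0) (b := 1)).mono_set
        Ico_subset_Icc_self
    refine h2.congr_fun (fun t ht => ?_) measurableSet_Ico
    unfold hzI2
    rw [cut_of_mem ht]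
  · rw [int_hi hS.hz i hτ, ← int_dens2 hS.hz i hτ]
    exact setIntegral_congr_fun measurableSet_Ico fun t ht =>
      mul_accI hS i ⟨ht.1, ht.2.trans_le hτ.2⟩

theorem dn_eq2 (hS : Sol x h H φ) (i : G.edgeSet ⊕ V) {t : ℝ} (ht : t ∈ Ico (0:ℝ) 1) :
    dnI2 x h H i t = hzI2 h i t * Real.exp (-∫ q in Ico 0 t, hzI2 h i q) := by
  unfold dnI2
  rw [mul_accI hS i ht, int_hi hS.hz i ⟨ht.1, ht.2.le⟩]
  unfold hzI2
  rw [cut_of_mem ht]

theorem hzI2_bound (hh : Haz h H) :
    ∃ C, 0 ≤ C ∧ ∀ (f : G.edgeSet ⊕ V) t, |hzI2 h f t| ≤ C := by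
  obtain ⟨C, hC⟩ := hh.bdd
  refine ⟨|C|, abs_nonneg C, fun f t => ?_⟩
  unfold hzI2 cut
  by_cases ht : t ∈ Ico (0:ℝ) 1
  · rw [Set.indicator_of_mem ht]
    have h1 : 0 ≤ hi h f t := hh.nonneg _ _ _
    rw [abs_of_nonneg h1]
    exact (hC _ _ _).trans (le_abs_self C)
  · rw [Set.indicator_of_notMem ht]; simp

theorem hzI2_int (hh : Haz h H) (f : G.edgeSet ⊕ V) : IntegrableOn (hzI2 h f) (Ico 0 1) := by
  have h2 : IntegrableOn (hi h f) (Ico 0 1) :=
    ((hh.cont _ _).continuousOn.integrableOn_Icc (a := 0) (b := 1)).mono_set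
      Ico_subset_Icc_self
  refine h2.congr_fun (fun t ht => ?_) measurableSet_Ico
  unfold hzI2
  rw [cut_of_mem ht]

/-- the ring process satisfies the hierarchy -/
theorem pf_hier2 (hS : Sol x h H φ) (hx : IsFractionalMatching G x)
    [∀ i, IsProbabilityMeasure (lwI2 x h H i)] :
    Hier (ends G) (hzI2 h) (pf (ends G) (lwI2 x h H) Finset.univ) := by
  intro W s hs
  rw [pf_eq (ends G) (lwI2 x h H) (dnI2 x h H) (hzI2 h) (ringLawI2 hS hx) Finset.univ W hs.2]
  congr 1
  refine Finset.sum_congr rfl fun f _ => ?_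
  refine setIntegral_congr_fun measurableSet_Ico fun t ht => ?_
  have ht1 : t ∈ Ico (0:ℝ) 1 := ⟨ht.1, ht.2.trans_le hs.2⟩
  rw [pf_erase (ends G) (lwI2 x h H) (dnI2 x h H) (hzI2 h) (ringLawI2 hS hx) Finset.univ
    (W ∪ ends G f) (Finset.mem_univ f) Finset.subset_union_right (ends_nonempty f)
    ⟨ht1.1, ht1.2.le⟩, dn_eq2 hS f ht1]
  ring

end FinA

end Pool.Agent.RZ.RCG
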