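import Pool.Agent.RZ.RCG.CtA
import Pool.Agent.RZ.RCG.FinA

/-! Stage 1 of the certificate: the extended graph and the final reduction (MP_73ccd0_lc). -/

namespace Pool.Agent.RZ.RCG.Ct

open MeasureTheory Finset Set Pool.Agent.RZ.RCRS Pool.Agent.RZ.RCRSHalf

set_option linter.unusedSectionVars false

section pend

variable {V : Type} [Fintype V] [DecidableEq V] {G : SimpleGraph V} [Fintype G.edgeSet]
  [DecidableEq G.edgeSet] {x : G.edgeSet → ℝ} [Pool.Agent.RZ.RCG.CX x]
  {h : ℝ → V ⊕ V → V ⊕ V → ℝ} {H : V ⊕ V → V ⊕ V → ℝ → ℝ}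

/-- the free set contains the pendant vertex whenever it contains the vertex -/
theorem pend_zero' (hh : Haz h H) (hz : ∀ t ∈ Icc (0 : ℝ) 1, ∀ a b, xe x a b = 0 → h t a b = 0)
    (v : V) {s : ℝ} (hs : s ∈ Icc (0 : ℝ) 1) :
    ∑ F : Finset (V ⊕ V), lw h ∅ s F *
      (if Sum.inl v ∈ F ∧ Sum.inr v ∉ F then 1 else 0) = 0 := by
  have hμ := hh.lw (∅ : Finset (V ⊕ V))
  have hgen : ∀ t ∈ Icc (0 : ℝ) 1, ∀ F : Finset (V ⊕ V),
      gen (h t) (fun F => if Sum.inl v ∈ F ∧ Sum.inr v ∉ F then (1 : ℝ) else 0) F ≤ 0 := by
    intro t ht F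
    unfold gen
    refine mul_nonpos_of_nonneg_of_nonpos (by norm_num)
      (Finset.sum_nonpos fun a ha => Finset.sum_nonpos fun b hb => ?_)
    beta_reduce
    by_cases hF : Sum.inl v ∈ F ∧ Sum.inr v ∉ F
    · rw [if_pos hF]
      refine mul_nonpos_of_nonneg_of_nonpos (hh.nonneg _ _ _) ?_
      split_ifs <;> norm_num
    · rw [if_neg hF]
      by_cases hG : Sum.inl v ∈ (F.erase a).erase b ∧ Sum.inr v ∉ (F.erase a).erase b
      · have h1 : Sum.inl v ∈ F := Finset.mem_of_mem_erase (Finset.mem_of_mem_erase hG.1)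
        have h2 : Sum.inr v ∈ F := by
          by_contra hc; exact hF ⟨h1, hc⟩
        have ha1 : a ≠ Sum.inl v := fun e => by
          have := (Finset.mem_erase.1 (Finset.mem_of_mem_erase hG.1)).1
          exact this e.symm
        have hb1 : b ≠ Sum.inl v := fun e => by
          have := (Finset.mem_erase.1 hG.1).1
          exact this e.symm
        have h3 : a = Sum.inr v ∨ b = Sum.inr v := by
          by_contra hc
          push Not at hc
          exact hG.2 (Finset.mem_erase.2 ⟨fun e => hc.2 e.symm,
            Finset.mem_erase.2 ⟨fun e => hc.1 e.symm, h2⟩⟩)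
        have hz : h t a b = 0 := by
          refine hz t ht a b ?_
          rcases h3 with rfl | rfl
          · rcases b with b | b
            · simp only [xe]
              rw [if_neg]
              intro e; exact hb1 (by rw [e])
            · rfl
          · rcases a with a | a
            · simp only [xe]
              rw [if_neg]
              intro e; exact ha1 (by rw [e])
            · rfl
        rw [hz]; simp
      · rw [if_neg hG]; simp
  have key := nonneg_of_forward
    (U := fun t => -∑ F : Finset (V ⊕ V), lw h ∅ t F *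
      (if Sum.inl v ∈ F ∧ Sum.inr v ∉ F then 1 else 0))
    (a := 0) (s := 1)
    (fun t ht => (hμ.deriv_sum
      (φ := fun _ F => if Sum.inl v ∈ F ∧ Sum.inr v ∉ F then (1 : ℝ) else 0)
      (φ' := fun _ _ => 0) ht (fun F => hasDerivAt_const _ _)).neg)
    (by
      rw [hμ.start]
      simp only [pt, ite_mul, one_mul, zero_mul, Finset.sum_ite_eq', Finset.mem_univ, if_true]
      simp)
    (fun t ht _ => by
      have : ∑ F : Finset (V ⊕ V), lw h ∅ t F * (gen (h t)
          ((fun _ F => if Sum.inl v ∈ F ∧ Sum.inr v ∉ F then (1 : ℝ) else 0) t) F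
          + (fun _ _ => (0:ℝ)) t F) ≤ 0 := by
        refine Finset.sum_nonpos fun F _ => ?_
        refine mul_nonpos_of_nonneg_of_nonpos (hμ.nonneg F t ht) ?_
        have := hgen t ht F
        simp only [add_zero]
        exact this
      linarith) s hs
  have h2 : 0 ≤ ∑ F : Finset (V ⊕ V), lw h ∅ s F *
      (if Sum.inl v ∈ F ∧ Sum.inr v ∉ F then (1:ℝ) else 0) :=
    Finset.sum_nonneg fun F _ => mul_nonneg (hμ.nonneg F s hs) (by split_ifs <;> norm_num)
  linarith

/-- for a pendant edge the pair is free iff the real vertex is free -/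
theorem pp_pend (hh : Haz h H) (hz : ∀ t ∈ Icc (0 : ℝ) 1, ∀ a b, xe x a b = 0 → h t a b = 0)
    (v : V) {s : ℝ} (hs : s ∈ Icc (0 : ℝ) 1) :
    pp h (Sum.inl v) (Sum.inr v) s = bb h ∅ (Sum.inl v) s := by
  have hμ := hh.lw (∅ : Finset (V ⊕ V))
  have h0 := pend_zero' hh hz v hs
  rw [Finset.sum_eq_zero_iff_of_nonneg (fun F _ => mul_nonneg (hμ.nonneg F s hs)
    (by split_ifs <;> norm_num))] at h0
  unfold pp bb pr
  refine Finset.sum_congr rfl fun F _ => ?_
  by_cases hW : ({Sum.inl v} : Finset (V ⊕ V)) ⊆ F
  · have hvF : Sum.inl v ∈ F := Finset.singleton_subset_iff.1 hW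
    by_cases hi : Sum.inr v ∈ F
    · rw [if_pos hW, if_pos]
      intro a ha
      rcases Finset.mem_insert.1 ha with rfl | ha
      · exact hvF
      · rw [Finset.mem_singleton.1 ha]; exact hi
    · have := h0 F (Finset.mem_univ _)
      rw [if_pos ⟨hvF, hi⟩, mul_one] at this
      rw [this]; simp
  · rw [if_neg hW, if_neg (fun hh => hW ((Finset.singleton_subset_iff.2
      (hh (Finset.mem_insert_self _ _)))))]

/-- the real vertices -/
def P0 (V : Type) (a : V ⊕ V) : Prop := a.isLeft = true

instance : DecidablePred (P0 V) := fun a => inferInstanceAs (Decidable (a.isLeft = true))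

theorem P0_inl (a : V) : P0 V (Sum.inl a) := rfl

theorem not_P0_inr (a : V) : ¬P0 V (Sum.inr a) := by simp [P0]

theorem wt_xe (hx : IsFractionalMatching G x) {d : ℝ} (hd0 : 0 ≤ d) (hd1 : d ≤ 1)
    (hd : ∀ e, x e ≤ d) : Wt (xe x) (P0 V) d where
  d0 := hd0
  d1 := hd1
  le a b ha hb := by
    rcases a with a | a
    · rcases b with b | b
      · show xw x a b ≤ d
        by_cases h : G.Adj a b
        · rw [xw_adj x h]; exact hd _
        · rw [xw_nadj x h]; exact hd0
      · exact absurd hb (not_P0_inr b)
    · exact absurd ha (not_P0_inr a)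
  leX a b := by
    have hd : ∀ v, defect x v = 0 := fun v => by
      unfold defect
      rw [Pool.Agent.RZ.RCG.CX.row1 (x := x) v, sub_self]
    rcases a with a | a <;> rcases b with b | b
    · show xw x a b ≤ _
      by_cases h : G.Adj a b
      · rw [xw_adj x h]; exact Pool.Agent.RZ.RCG.CX.le _
      · rw [xw_nadj x h]; exact Pool.Agent.RZ.RCG.XM_pos.le
    · simp only [xe]
      rw [hd, ite_self]; exact Pool.Agent.RZ.RCG.XM_pos.le
    · simp only [xe]
      rw [hd, ite_self]; exact Pool.Agent.RZ.RCG.XM_pos.le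
    · exact Pool.Agent.RZ.RCG.XM_pos.le
  pz a b hab := by
    have hd : ∀ v, defect x v = 0 := fun v => by
      unfold defect
      rw [Pool.Agent.RZ.RCG.CX.row1 (x := x) v, sub_self]
    rcases a with a | a <;> rcases b with b | b
    · exact absurd ⟨P0_inl a, P0_inl b⟩ hab
    · simp only [xe]
      rw [hd, ite_self]
    · simp only [xe]
      rw [hd, ite_self]
    · rfl
  symm := xe_symm x
  nonneg := xe_nonneg x hx
  diag := xe_diag x
  row := xe_row x hx
  row1 a ha := by
    rcases a with a | a
    · exact xe_row_inl x a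
    · exact absurd ha (not_P0_inr a)
  pend a b hb hab := by
    rcases b with b | b
    · exact absurd (P0_inl b) hb
    · rcases a with a | a
      · exact P0_inl a
      · exact absurd rfl hab
  pend1 a b c hb hab hbc := by
    rcases b with b | b
    · exact absurd (P0_inl b) hb
    · rcases a with a | a
      · rcases c with c | c
        · simp only [xe] at hab hbc
          have h1 : a = b := by by_contra hc; rw [if_neg hc] at hab; exact hab rfl
          have h2 : b = c := by by_contra hc; rw [if_neg hc] at hbc; exact hbc rfl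
          rw [h1, h2]
        · exact absurd rfl hbc
      · exact absurd rfl hab

/-- a pendant edge joins a vertex and its pendant vertex -/
theorem xe_pend {a : V} {b : V} (h : xe x (Sum.inl a) (Sum.inr b) ≠ 0) : b = a := by
  simp only [xe] at h
  by_contra hc
  rw [if_neg (Ne.symm hc)] at h
  exact h rfl

end pend

section final

end final

end Pool.Agent.RZ.RCG.Ct
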