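import Pool.Agent.RZ.RCG.Wk
import Pool.Agent.RZ.RCRSHalf.Bounds

/-! Explicit closures from walk vectors (MP_73ccd0_lc, general graphs). -/

namespace Pool.Agent.RZ.RCG

open Set Finset Matrix Pool.Agent.RZ.RCRSHalf

set_option linter.unusedSectionVars false

variable {V : Type*} [Fintype V] [DecidableEq V]

/-- lower influence bound -/
noncomputable def Nw (c κ θ : ℝ) (A : Matrix V V ℝ) (F : V → ℝ) (m : ℝ) (a : V) : ℝ :=
  b2 c m * (A *ᵥ F) a + b4 c κ m * (A *ᵥ (A *ᵥ (A *ᵥ Res θ (A * A) F))) a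

/-- exponent of the upper influence bound -/
noncomputable def Yw (c κ θ : ℝ) (A : Matrix V V ℝ) (F : V → ℝ) (m : ℝ) (a : V) : ℝ :=
  g3 c m * (A *ᵥ (A *ᵥ F)) a + g5 c κ m * (A *ᵥ (A *ᵥ (A *ᵥ (A *ᵥ Res θ (A * A) F)))) a

section vec

end vec

end Pool.Agent.RZ.RCG
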