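import Pool.Agent.RZ.RCG.Ctx
import Pool.Agent.RZ.RCG.WClo
import Pool.Agent.RZ.RCRSHalf.Func

/-! The context of the explicit bounds: hazards dominated by `μ x` with clock `M`, `M t ≤ 23/20`;
explicit closures for one target and for a group of two targets (MP_73ccd0_lc, general graphs). -/

namespace Pool.Agent.RZ.RCG

open Set Finset Matrix Pool.Agent.RZ.RCRSHalf

set_option linter.unusedSectionVars false

variable {V : Type*} [Fintype V] [DecidableEq V]
variable {h : ℝ → V → V → ℝ} {H : V → V → ℝ → ℝ} {X : V → V → ℝ} {M μ : ℝ → ℝ} {t : ℝ}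

/-- the context -/
structure Cx (h : ℝ → V → V → ℝ) (H : V → V → ℝ → ℝ) (X : V → V → ℝ) (M μ : ℝ → ℝ) (t : ℝ) :
    Prop where
  hh : Haz h H
  hX : Wt X
  t0 : 0 ≤ t
  t1 : t ≤ 1
  Md : ∀ r ∈ Icc 0 t, HasDerivAt M (μ r) r
  μ0 : ∀ r ∈ Icc 0 t, 0 ≤ μ r
  M0 : M 0 = 0
  Mt : M t ≤ 23 / 20
  le : ∀ r ∈ Icc 0 t, ∀ a b, h r a b ≤ μ r * X a b

/-! ### Rows -/

/-! ### Constants -/

/-- the vector `F` with `exp (m y) ≤ 1 + m F y` for `m ≤ 23/20`, `y ≤ 1` -/
noncomputable def Fc (y : ℝ) : ℝ := y * (1 + 877 / 1000 * y)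

/-! ### Sup bounds -/

/-! ### The closures -/

/-- lower influence, one target -/
noncomputable def Nt (X : V → V → ℝ) (H0 : Finset V) (w : V) (m : ℝ) (a : V) : ℝ :=
  Nw (151 / 1000) (1111 / 1000) (745 / 10000) (rm X H0) (fun b => Fc (X w b)) m a

/-- exponent of the upper influence, one target -/
noncomputable def Yt (X : V → V → ℝ) (H0 : Finset V) (w : V) (m : ℝ) (a : V) : ℝ :=
  Yw (151 / 1000) (1111 / 1000) (745 / 10000) (rm X H0) (fun b => Fc (X w b)) m a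

/-- upper influence, one target -/
noncomputable def Pt (H : V → V → ℝ → ℝ) (X : V → V → ℝ) (M : ℝ → ℝ) (H0 : Finset V) (w : V)
    (T : ℝ) (a : V) (r : ℝ) : ℝ :=
  Real.exp (H w a T - H w a r + Yt X H0 w (M T - M r) a) - 1

end Pool.Agent.RZ.RCG
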