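import Pool.Agent.RZ.RCG.Steps

/-! Joint induction for the one-step influences (MP_73ccd0_lc, general graphs). -/

namespace Pool.Agent.RZ.RCG

open Set Finset Pool.Agent.RZ.RCRSHalf

set_option linter.unusedSectionVars false

variable {V : Type*} [Fintype V] [DecidableEq V]

variable {h : ℝ → V → V → ℝ} {k : ℝ → V → ℝ} {ρ cs : ℝ → ℝ} {s : ℝ} {R : Finset V → ℝ → ℝ}

/-- The influence bounds `(1.1)`, `(1.2)` from the closure inequalities. -/
theorem infl (hs : ∀ t a b, h t a b = h t b a) (haa : ∀ t a, h t a a = 0)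
    (h0 : ∀ t a b, 0 ≤ h t a b) (k0 : ∀ t a, 0 ≤ k t a) (ρ0 : ∀ t, 0 ≤ ρ t) (c0 : ∀ t, 0 ≤ cs t)
    (hR : IsEv h k ρ cs s R) (H0 : Finset V) {P P' N N' : V → ℝ → ℝ}
    (hPd : ∀ a ∈ H0, ∀ r ∈ Icc 0 s, HasDerivAt (P a) (P' a r) r)
    (hNd : ∀ a ∈ H0, ∀ r ∈ Icc 0 s, HasDerivAt (N a) (N' a r) r)
    (hP0 : ∀ a ∈ H0, ∀ r ∈ Icc 0 s, 0 ≤ P a r)
    (hN0 : ∀ a ∈ H0, ∀ r ∈ Icc 0 s, 0 ≤ N a r)
    (hN1 : ∀ a ∈ H0, ∀ r ∈ Icc 0 s, N a r ≤ 1)
    (hP : ∀ a ∈ H0, ∀ r ∈ Icc 0 s,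
      (1 + P a r) * (k r a + ∑ b ∈ H0, h r a b * N b r) ≤ -P' a r)
    (hN : ∀ a ∈ H0, ∀ r ∈ Icc 0 s, ∑ b ∈ H0, h r a b * P b r ≤ -N' a r)
    (hPs : ∀ G ⊆ H0, ∀ a ∈ G, R (G.erase a) s ≤ (1 + P a s) * R G s)
    (hNs : ∀ G ⊆ H0, ∀ a ∈ G, (1 - N a s) * R G s ≤ R (G.erase a) s) :
    ∀ G ⊆ H0, ∀ a ∈ G, ∀ r ∈ Icc 0 s,
      R (G.erase a) r ≤ (1 + P a r) * R G r ∧ (1 - N a r) * R G r ≤ R (G.erase a) r := by
  intro G
  induction hn : G.card using Nat.strong_induction_on generalizing G with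
  | _ n ih =>
  intro hG a ha r hr
  have haH := hG ha
  have hsub : G.erase a ⊆ H0 := (Finset.erase_subset _ _).trans hG
  have hna : a ∉ G.erase a := Finset.notMem_erase a G
  have hcard : ∀ G' ⊆ G.erase a, G'.card < n := fun G' hG' => by
    rw [← hn]
    exact (Finset.card_le_card hG').trans_lt (Finset.card_erase_lt_of_mem ha)
  have hins : insert a (G.erase a) = G := Finset.insert_erase ha
  have IH : ∀ G' ⊆ G.erase a, ∀ b ∈ G', ∀ r ∈ Icc 0 s,
      R (G'.erase b) r ≤ (1 + P b r) * R G' r ∧ (1 - N b r) * R G' r ≤ R (G'.erase b) r :=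
    fun G' hG' => ih _ (hcard G' hG') G' rfl (hG'.trans hsub)
  constructor
  · have := stepP hs haa h0 k0 ρ0 c0 hR (H0 := G.erase a) hna (N := N) (P := P a) (P' := P' a)
      (fun b hb => hN1 b (hsub hb)) (fun G' hG' b hb r hr => (IH G' hG' b hb r hr).2)
      (hPd a haH)
      (fun G' hG' => by
        have hi : insert a G' ⊆ H0 := Finset.insert_subset haH (hG'.trans hsub)
        have := hPs (insert a G') hi a (Finset.mem_insert_self _ _)
        rwa [Finset.erase_insert (fun hh => hna (hG' hh))] at this)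
      (hP0 a haH)
      (fun r hr => by
        refine le_trans ?_ (hP a haH r hr)
        refine mul_le_mul_of_nonneg_left ?_ (by linarith [hP0 a haH r hr])
        have : ∑ b ∈ G.erase a, h r a b * N b r ≤ ∑ b ∈ H0, h r a b * N b r :=
          Finset.sum_le_sum_of_subset_of_nonneg hsub fun b hb _ =>
            mul_nonneg (h0 _ _ _) (hN0 b hb r hr)
        linarith)
      (fun b hb => hN0 b (hsub hb)) (G.erase a) Finset.Subset.rfl r hr
    rwa [hins] at this
  · have := stepN hs haa h0 k0 ρ0 c0 hR (H0 := G.erase a) hna (P := P) (N := N a) (N' := N' a)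
      (fun b hb => hP0 b (hsub hb)) (fun G' hG' b hb r hr => (IH G' hG' b hb r hr).1)
      (hNd a haH) (hN0 a haH) (hN1 a haH)
      (fun G' hG' => by
        have hi : insert a G' ⊆ H0 := Finset.insert_subset haH (hG'.trans hsub)
        have := hNs (insert a G') hi a (Finset.mem_insert_self _ _)
        rwa [Finset.erase_insert (fun hh => hna (hG' hh))] at this)
      (fun r hr => by
        refine le_trans ?_ (hN a haH r hr)
        exact Finset.sum_le_sum_of_subset_of_nonneg hsub fun b hb _ =>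
          mul_nonneg (h0 _ _ _) (hP0 b hb r hr))
      (G.erase a) Finset.Subset.rfl r hr
    rwa [hins] at this

end Pool.Agent.RZ.RCG
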