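import Mathlib

/-! The bound of the weights (MP_73ccd0_lc): the class of the graphs with small weights. -/

namespace Pool.Agent.RZ.RCG

/-- the weights are at most `1 / xN` -/
def xN : ℕ := 12

/-- the bound of the weights -/
noncomputable def XM : ℝ := 1 / (xN : ℝ)

theorem two_le_xN : 2 ≤ xN := by unfold xN; norm_num

theorem xN_pos : (0 : ℝ) < (xN : ℝ) := by
  have h : (2 : ℝ) ≤ (xN : ℝ) := by exact_mod_cast two_le_xN
  linarith

theorem XM_pos : 0 < XM := by
  unfold XM
  exact div_pos one_pos xN_pos

theorem XM_half : XM ≤ 1 / 2 := by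
  have h : (2 : ℝ) ≤ (xN : ℝ) := by exact_mod_cast two_le_xN
  unfold XM
  exact one_div_le_one_div_of_le (by norm_num) h

theorem XM_le : XM ≤ 1 := XM_half.trans (by norm_num)

/-- `xN XM = 1` -/
theorem xN_mul : (xN : ℝ) * XM = 1 := by
  unfold XM
  exact mul_one_div_cancel xN_pos.ne'

/-- the value of the class as a rational number -/
theorem XM_cast : XM = ((1 / (xN : ℚ) : ℚ) : ℝ) := by
  unfold XM
  push_cast
  rfl

/-- the class: weights at most `XM`, and the weights at every vertex sum to one -/
class CX {V : Type} [DecidableEq V] {G : SimpleGraph V} [Fintype G.edgeSet]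
    (x : G.edgeSet → ℝ) : Prop where
  le : ∀ e, x e ≤ XM
  row1 : ∀ v : V, (∑ e : G.edgeSet, if v ∈ (e : Sym2 V) then x e else 0) = 1

end Pool.Agent.RZ.RCG
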